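import Pool.Agent.HSU.TorKoszul

/-!
# The length of `Tor` is bounded by the length of Koszul homology
-/

namespace Pool.Agent.HSU

open MvPolynomial Finset Pool.Agent.BEI Pool.Agent.HS CategoryTheory

set_option linter.unusedSectionVars false

universe u

theorem length_sc_le {R : Type u} [CommRing R] (S : ShortComplex (ModuleCat.{u} R)) {Y : Type u}
    [AddCommGroup Y] [Module R Y] (Z B : Submodule R Y) (Φ : S.X₂ →ₗ[R] Y)
    (hZ : ∀ x, S.g x = 0 → Φ x ∈ Z) (hB : ∀ x, Φ (S.f x) ∈ B)
    (hB' : ∀ x, Φ x ∈ B → ∃ y, S.f y = x) :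
    Module.length R S.homology ≤ ql Z B := by
  have e1 : Module.length R S.homology =
      Module.length R (LinearMap.ker S.g.hom ⧸ LinearMap.range S.moduleCatToCycles) :=
    S.moduleCatHomologyIso.toLinearEquiv.length_eq
  rw [e1]
  let φ : LinearMap.ker S.g.hom →ₗ[R] Z :=
    (Φ ∘ₗ (LinearMap.ker S.g.hom).subtype).codRestrict Z (fun x => hZ x.1 x.2)
  have hle : LinearMap.range S.moduleCatToCycles ≤ (B.submoduleOf Z).comap φ := by
    rintro _ ⟨x, rfl⟩
    exact hB x
  refine Module.length_le_of_injective (Submodule.mapQ _ _ φ hle) ?_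
  rw [← LinearMap.ker_eq_bot, LinearMap.ker_eq_bot']
  intro x hx
  obtain ⟨x, rfl⟩ := Submodule.mkQ_surjective _ x
  rw [Submodule.mkQ_apply, Submodule.mapQ_apply, Submodule.Quotient.mk_eq_zero] at hx
  rw [Submodule.mkQ_apply, Submodule.Quotient.mk_eq_zero]
  obtain ⟨y, hy⟩ := hB' x.1 hx
  exact ⟨y, Subtype.ext hy⟩

theorem length_homology_le {R : Type u} [CommRing R] (C : ChainComplex (ModuleCat.{u} R) ℕ)
    {Y : Type u} [AddCommGroup Y] [Module R Y] (D : Y →ₗ[R] Y) (C' : ℕ → Submodule R Y)
    (Φ : ∀ i, C.X i →ₗ[R] Y) (hinj : ∀ i, Function.Injective (Φ i))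
    (hmem : ∀ i x, Φ i x ∈ C' i) (hsurj : ∀ i, ∀ y ∈ C' i, ∃ x, Φ i x = y)
    (hcomm : ∀ i x, D (Φ (i + 1) x) = Φ i (C.d (i + 1) i x)) (h0 : ∀ x, D (Φ 0 x) = 0) (i : ℕ) :
    Module.length R (C.homology i) ≤ ql (C' i ⊓ LinearMap.ker D) ((C' (i + 1)).map D) := by
  have hgen : ∀ j, (ComplexShape.down ℕ).next i = j → (∀ x, C.d i j x = 0 → D (Φ i x) = 0) →
      Module.length R (C.homology i) ≤ ql (C' i ⊓ LinearMap.ker D) ((C' (i + 1)).map D) := by
    intro j hj hD
    have e1 : Module.length R (C.homology i) = Module.length R (C.sc' (i + 1) i j).homology :=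
      (HomologicalComplex.homologyIsoSc' C (i + 1) i j (by simp) hj).toLinearEquiv.length_eq
    rw [e1]
    refine length_sc_le (C.sc' (i + 1) i j) _ _ (Φ i) ?_ ?_ ?_
    · intro x hx
      exact ⟨hmem i x, hD x hx⟩
    · intro x
      exact ⟨Φ (i + 1) x, hmem (i + 1) x, hcomm i x⟩
    · rintro x ⟨y, hy, hyx⟩
      obtain ⟨z, rfl⟩ := hsurj (i + 1) y hy
      refine ⟨z, ?_⟩
      rw [hcomm] at hyx
      exact hinj i hyx
  rcases i with _ | i
  · exact hgen 0 (by simp) (fun x _ => h0 x)
  · refine hgen i (by simp) (fun x hx => ?_)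
    rw [hcomm, hx, map_zero]

section tor

variable (k : Type u) [Field k] (n : ℕ) (N : Type u) [AddCommGroup N]
  [Module (MvPolynomial (Fin n) k) N]

/-- chains of degree `i` -/
def chI (i : ℕ) : Submodule (MvPolynomial (Fin n) k) (Finset (Fin n) → N) where
  carrier := {f | ∀ A, f A ≠ 0 → A.card = i}
  add_mem' := by
    intro f g hf hg A h
    by_cases h1 : f A = 0
    · rw [Pi.add_apply, h1, zero_add] at h
      exact hg A h
    · exact hf A h1
  zero_mem' := fun A h => absurd rfl h
  smul_mem' := by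
    intro c f hf A h
    refine hf A fun h0 => h ?_
    rw [Pi.smul_apply, h0, smul_zero]

/-- Koszul cycles -/
noncomputable def zI (i : ℕ) : Submodule (MvPolynomial (Fin n) k) (Finset (Fin n) → N) :=
  chI k n N i ⊓ LinearMap.ker (koszulD k N)

/-- Koszul boundaries -/
noncomputable def bI (i : ℕ) : Submodule (MvPolynomial (Fin n) k) (Finset (Fin n) → N) :=
  (chI k n N (i + 1)).map (koszulD k N)

/-- the comparison map `N ⊗ (ι → S) → (Finset → N)` -/
noncomputable def PhiT (i : ℕ) :
    TensorProduct (MvPolynomial (Fin n) k) N (Idx n i → MvPolynomial (Fin n) k) →ₗ[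
      MvPolynomial (Fin n) k] (Finset (Fin n) → N) :=
  extK (k := k) N i ∘ₗ
    (TensorProduct.piScalarRight (MvPolynomial (Fin n) k) (MvPolynomial (Fin n) k) N
      (Idx n i)).toLinearMap

theorem PhiT_injective (i : ℕ) : Function.Injective (PhiT k n N i) :=
  (extK_injective (k := k) N i).comp (LinearEquiv.injective _)

theorem PhiT_tmul (i : ℕ) (x : N) (f : Idx n i → MvPolynomial (Fin n) k) :
    PhiT k n N i (x ⊗ₜ[MvPolynomial (Fin n) k] f) = extK (k := k) N i (fun A => f A • x) := by
  show extK (k := k) N i (TensorProduct.piScalarRight (MvPolynomial (Fin n) k)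
    (MvPolynomial (Fin n) k) N (Idx n i) (x ⊗ₜ f)) = _
  rw [TensorProduct.piScalarRight_apply, TensorProduct.piScalarRightHom_tmul]

/-- functions obtained from ring valued ones -/
theorem koszulD_smul (f : Finset (Fin n) → MvPolynomial (Fin n) k) (x : N) :
    koszulD k N (fun A => f A • x) = fun A => koszulD k (MvPolynomial (Fin n) k) f A • x := by
  funext B
  rw [koszulD_apply, koszulD_apply, Finset.sum_smul]
  refine Finset.sum_congr rfl fun a _ => ?_
  rw [smul_assoc, smul_assoc]

theorem extK_smul (i : ℕ) (f : Idx n i → MvPolynomial (Fin n) k) (x : N) :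
    extK (k := k) N i (fun A => f A • x) =
      fun A => extK (k := k) (MvPolynomial (Fin n) k) i f A • x := by
  funext A
  by_cases h : A.card = i
  · rw [extK_apply (k := k) N i _ A h, extK_apply (k := k) (MvPolynomial (Fin n) k) i _ A h]
  · rw [extK_apply' (k := k) N i _ A h, extK_apply' (k := k) (MvPolynomial (Fin n) k) i _ A h,
      zero_smul]

theorem PhiT_comm (i : ℕ)
    (t : TensorProduct (MvPolynomial (Fin n) k) N (Idx n (i + 1) → MvPolynomial (Fin n) k)) :
    koszulD k N (PhiT k n N (i + 1) t) =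
      PhiT k n N i ((dK (k := k) (MvPolynomial (Fin n) k) i).lTensor N t) := by
  induction t using TensorProduct.induction_on with
  | zero => simp
  | tmul x f =>
    rw [LinearMap.lTensor_tmul, PhiT_tmul, PhiT_tmul, extK_smul, extK_smul, koszulD_smul,
      extK_dK]
  | add a b ha hb => rw [map_add, map_add, map_add, map_add, ha, hb]

theorem PhiT_zero
    (t : TensorProduct (MvPolynomial (Fin n) k) N (Idx n 0 → MvPolynomial (Fin n) k)) :
    koszulD k N (PhiT k n N 0 t) = 0 := by
  have h1 : PhiT k n N 0 t ∈ Ch (K := k) Finset.univ 0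
      (⊤ : Submodule (MvPolynomial (Fin n) k) N) := by
    intro A
    exact ⟨trivial, fun h => ⟨Finset.subset_univ _, extK_card (k := k) N _ A h⟩⟩
  exact koszulD_zero_deg h1

theorem tensor_d (i : ℕ) :
    ((((MonoidalCategory.tensoringLeft (ModuleCat.{u} (MvPolynomial (Fin n) k))).obj
      (ModuleCat.of (MvPolynomial (Fin n) k) N)).mapHomologicalComplex
        (ComplexShape.down ℕ)).obj (KC k n)).d (i + 1) i =
      ModuleCat.ofHom ((dK (k := k) (MvPolynomial (Fin n) k) i).lTensor N) := by
  show ((MonoidalCategory.tensoringLeft (ModuleCat.{u} (MvPolynomial (Fin n) k))).obj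
      (ModuleCat.of (MvPolynomial (Fin n) k) N)).map ((KC k n).d (i + 1) i) = _
  rw [KC_d]
  rfl

theorem length_tor_le (i : ℕ) :
    Module.length (MvPolynomial (Fin n) k)
      (((CategoryTheory.Tor (ModuleCat.{u} (MvPolynomial (Fin n) k)) i).obj
        (ModuleCat.of (MvPolynomial (Fin n) k) N)).obj
        (ModuleCat.of (MvPolynomial (Fin n) k) (MvPolynomial (Fin n) k ⧸
          Ideal.span (Set.range (MvPolynomial.X : Fin n → MvPolynomial (Fin n) k)))))
    ≤ Module.length (MvPolynomial (Fin n) k)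
        (↥(zI k n N i) ⧸ (bI k n N i).submoduleOf (zI k n N i)) := by
  have e1 := ((KR k n).isoLeftDerivedObj
    ((MonoidalCategory.tensoringLeft (ModuleCat.{u} (MvPolynomial (Fin n) k))).obj
      (ModuleCat.of (MvPolynomial (Fin n) k) N)) i).toLinearEquiv.length_eq
  refine (le_of_eq e1).trans ?_
  refine length_homology_le
    ((((MonoidalCategory.tensoringLeft (ModuleCat.{u} (MvPolynomial (Fin n) k))).obj
      (ModuleCat.of (MvPolynomial (Fin n) k) N)).mapHomologicalComplex
        (ComplexShape.down ℕ)).obj (KC k n)) (koszulD k N) (chI k n N)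
    (fun i => PhiT k n N i) (fun i => PhiT_injective k n N i) ?_ ?_ ?_ ?_ i
  · intro i x A hA
    exact extK_card (k := k) N _ A hA
  · intro i y hy
    obtain ⟨t, ht⟩ := (TensorProduct.piScalarRight (MvPolynomial (Fin n) k)
      (MvPolynomial (Fin n) k) N (Idx n i)).surjective (resK (k := k) N i y)
    refine ⟨t, ?_⟩
    show extK (k := k) N i (TensorProduct.piScalarRight (MvPolynomial (Fin n) k)
      (MvPolynomial (Fin n) k) N (Idx n i) t) = y
    rw [ht]
    exact extK_resK (k := k) N i y hy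
  · intro i x
    refine (PhiT_comm k n N i x).trans ?_
    rw [tensor_d]
    rfl
  · intro x
    exact PhiT_zero k n N x

end tor

end Pool.Agent.HSU
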