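import Pool.Agent.HS.Assemble
import Pool.Agent.HS.Model
import Pool.Agent.HSU.TorLen

/-!
# The width bound
-/

namespace Pool.Agent.HSU

open MvPolynomial Finset Pool.Agent.BEI Pool.Agent.HS

universe u

theorem zI_eq (k : Type u) [Field k] (n : ℕ) (N : Type u) [AddCommGroup N]
    [Module (MvPolynomial (Fin n) k) N] (i : ℕ) :
    Zy (K := k) Finset.univ i (⊤ : Submodule (MvPolynomial (Fin n) k) N) ⊥ = zI k n N i := by
  ext f
  rw [mem_Zy, zI, Submodule.mem_inf, LinearMap.mem_ker, mem_Ch]
  constructor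
  · rintro ⟨h1, h2⟩
    refine ⟨fun A hA => ((h1 A).2 hA).2, ?_⟩
    funext A
    exact (Submodule.mem_bot _).mp (h2 A)
  · rintro ⟨h1, h2⟩
    refine ⟨fun A => ⟨trivial, fun hA => ⟨Finset.subset_univ _, h1 A hA⟩⟩, fun A => ?_⟩
    rw [h2]
    exact Submodule.zero_mem _

theorem bI_eq (k : Type u) [Field k] (n : ℕ) (N : Type u) [AddCommGroup N]
    [Module (MvPolynomial (Fin n) k) N] (i : ℕ) :
    Bd (K := k) Finset.univ i (⊤ : Submodule (MvPolynomial (Fin n) k) N) ⊥ = bI k n N i := by
  ext f
  rw [mem_Bd, bI, Submodule.mem_map]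
  constructor
  · rintro ⟨g, hg, l, hl, rfl⟩
    refine ⟨g, fun A hA => ((hg A).2 hA).2, ?_⟩
    have : l = 0 := by
      funext A
      exact (Submodule.mem_bot _).mp (hl A).1
    rw [this, add_zero]
  · rintro ⟨g, hg, rfl⟩
    exact ⟨g, fun A => ⟨trivial, fun hA => ⟨Finset.subset_univ _, hg A hA⟩⟩, 0,
      Submodule.zero_mem _, by rw [add_zero]⟩

theorem tor_le_hl (k : Type u) [Field k] (n : ℕ) (N : Type u) [AddCommGroup N]
    [Module (MvPolynomial (Fin n) k) N] (i : ℕ) :
    Module.length (MvPolynomial (Fin n) k)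
      (((CategoryTheory.Tor (ModuleCat.{u} (MvPolynomial (Fin n) k)) i).obj
        (ModuleCat.of (MvPolynomial (Fin n) k) N)).obj
        (ModuleCat.of (MvPolynomial (Fin n) k) (MvPolynomial (Fin n) k ⧸
          Ideal.span (Set.range (MvPolynomial.X : Fin n → MvPolynomial (Fin n) k)))))
    ≤ hl (K := k) Finset.univ i (⊤ : Submodule (MvPolynomial (Fin n) k) N) ⊥ := by
  refine (length_tor_le k n N i).trans (le_of_eq ?_)
  rw [hl, ql, zI_eq, bI_eq]

/-- the case of one variable -/
theorem hl_one_var {K : Type u} [Field K] (g : Fin 1 → ℕ) (hpos : ∀ j, 0 < g j) (i : ℕ)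
    (hi : 1 ≤ i) :
    hl Finset.univ i (⊤ : Submodule (MvPolynomial (Fin 1) K) (MvPolynomial (Fin 1) K))
      (Istar K g) = 0 := by
  obtain ⟨j, rfl⟩ : ∃ j, i = j + 1 := ⟨i - 1, by omega⟩
  set a : Fin 1 → ℕ := fun _ => 0 with ha
  have hs := moShift (K := K) a
  rw [hl_Istar hs (g := g) (g0 := g 0) (h := 1) (by intro v; fin_cases v; simp [ha]) Nat.one_pos
    (Nat.coprime_one_right _)]
  have hQ : ∀ N, ∀ α ∈ QN (im a) N, α = 0 := by
    intro N
    induction N with
    | zero => intro α hα; simpa [QN] using hα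
    | succ N ih =>
      intro α hα
      rw [mem_QN_succ] at hα
      obtain ⟨β, hβ, c, hc, rfl⟩ := hα
      rw [im, Finset.mem_image] at hc
      obtain ⟨x, _, rfl⟩ := hc
      rw [ih β hβ, zero_add]
  have hJ : St (JN (im a) (g 0) 1) = ∅ := by
    ext z
    simp only [Set.mem_empty_iff_false, iff_false]
    intro hz
    have hz' : z.1 ∈ JN (im a) (g 0) 1 z.2 := hz
    rw [mem_JN] at hz'
    obtain ⟨h1, t, ht, β, _, he⟩ := hz'
    rw [hQ _ _ h1] at he
    have : 0 < t * g 0 := Nat.mul_pos ht (hpos 0)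
    omega
  have huniv : (Finset.univ : Finset (Fin 1)) = insert 0 ∅ := by decide
  rw [hJ, mon_empty, huniv]
  apply le_antisymm _ zero_le
  refine (hl_remove_first hs (Finset.notMem_empty _) j Cl_St_QN).trans (le_of_eq ?_)
  apply ql_eq_zero
  intro f hf
  rw [mem_Zy] at hf
  have hf0 : f = 0 := by
    funext A
    by_contra h
    obtain ⟨h1, h2⟩ := (hf.1 A).2 h
    rw [Finset.subset_empty] at h1
    rw [h1] at h2
    simp at h2
  rw [hf0]
  exact Submodule.zero_mem _

theorem coprime_of_finite_compl {V : Type*} {g : V → ℕ} {g0 h : ℕ}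
    (hdvd : ∀ j, Nat.gcd g0 h ∣ g j)
    (hfin : ((AddSubmonoid.closure (Set.range g) : Set ℕ)ᶜ).Finite) : Nat.Coprime g0 h := by
  have hle : AddSubmonoid.closure (Set.range g) ≤
      (AddSubmonoid.multiples (Nat.gcd g0 h) : AddSubmonoid ℕ) := by
    rw [AddSubmonoid.closure_le]
    rintro _ ⟨j, rfl⟩
    obtain ⟨c, hc⟩ := hdvd j
    rw [SetLike.mem_coe, AddSubmonoid.mem_multiples_iff]
    exact ⟨c, by rw [hc, smul_eq_mul, mul_comm]⟩
  obtain ⟨N, hN⟩ := hfin.bddAbove
  have hmem : ∀ x, N < x → Nat.gcd g0 h ∣ x := by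
    intro x hx
    have h1 : x ∈ AddSubmonoid.closure (Set.range g) := by
      by_contra hcon
      exact absurd (hN hcon) (by omega)
    have h2 := hle h1
    rw [AddSubmonoid.mem_multiples_iff] at h2
    obtain ⟨c, hc⟩ := h2
    rw [← hc, smul_eq_mul]
    exact Dvd.intro_left _ rfl
  have h1 := hmem (N + 1) (by omega)
  have h2 := hmem (N + 2) (by omega)
  have h3 : Nat.gcd g0 h ∣ 1 := by
    have := (Nat.dvd_add_right h1).mp (show Nat.gcd g0 h ∣ N + 1 + 1 from h2)
    exact this
  exact Nat.dvd_one.mp h3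

theorem hl_le_width {K : Type u} [Field K] (n : ℕ) (g : Fin (n + 1) → ℕ) (hmono : StrictMono g)
    (hpos : ∀ j, 0 < g j) (hfin : ((AddSubmonoid.closure (Set.range g) : Set ℕ)ᶜ).Finite)
    (i : ℕ) (hi : 1 ≤ i) :
    hl Finset.univ i
      (⊤ : Submodule (MvPolynomial (Fin (n + 1)) K) (MvPolynomial (Fin (n + 1)) K))
      (Istar K g) ≤ ((i * Nat.choose (g (Fin.last n) - g 0 + 1) (i + 1) : ℕ) : ℕ∞) := by
  rcases Nat.eq_zero_or_pos n with hn | hn
  · subst hn
    rw [hl_one_var g hpos i hi]
    exact zero_le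
  · have hlast : g 0 < g (Fin.last n) := hmono (by
      rw [Fin.lt_def]
      simpa using hn)
    set h := Finset.univ.gcd (fun j => g j - g 0) with hh
    have hdvd : ∀ j, h ∣ g j - g 0 := fun j => Finset.gcd_dvd (Finset.mem_univ j)
    have hh0 : 0 < h := by
      rcases Nat.eq_zero_or_pos h with h0 | h0
      · have := hdvd (Fin.last n)
        rw [h0, Nat.zero_dvd] at this
        omega
      · exact h0
    set a : Fin (n + 1) → ℕ := fun j => (g j - g 0) / h with ha
    have hle : ∀ j, g 0 ≤ g j := fun j => hmono.monotone (Fin.zero_le j)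
    have hga : ∀ j, g j = g 0 + h * a j := by
      intro j
      have h1 : h * a j = g j - g 0 := Nat.mul_div_cancel' (hdvd j)
      have h2 := hle j
      omega
    have hinj : Function.Injective a := by
      intro x y hxy
      apply hmono.injective
      rw [hga x, hga y, hxy]
    have ha0 : a 0 = 0 := by simp [ha]
    set w := a (Fin.last n) with hw
    have hwW : h * w = g (Fin.last n) - g 0 := Nat.mul_div_cancel' (hdvd (Fin.last n))
    have hwpos : 0 < w := by
      rcases Nat.eq_zero_or_pos w with h0 | h0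
      · rw [h0, mul_zero] at hwW
        omega
      · exact h0
    have hA : GoodA (im a) w := by
      refine ⟨?_, mem_im (a := a) (Fin.last n), ?_, hwpos, ?_⟩
      · rw [← ha0]; exact mem_im (a := a) 0
      · intro x hx
        rw [im, Finset.mem_image] at hx
        obtain ⟨j, _, rfl⟩ := hx
        have h1 : g j ≤ g (Fin.last n) := hmono.monotone (Fin.le_last j)
        have h2 : h * a j ≤ h * w := by
          have e1 := hga j
          have e2 := hga (Fin.last n)
          rw [← hw] at e2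
          omega
        exact Nat.le_of_mul_le_mul_left h2 hh0
      · intro k hk
        have h1 : h * k ∣ h := by
          conv_rhs => rw [hh]
          apply Finset.dvd_gcd
          intro j _
          have h2 : h * a j = g j - g 0 := Nat.mul_div_cancel' (hdvd j)
          rw [← h2]
          exact Nat.mul_dvd_mul_left h (hk _ (mem_im j))
        have h2 : h * k ∣ h * 1 := by rwa [mul_one]
        exact Nat.dvd_one.mp (Nat.dvd_of_mul_dvd_mul_left hh0 h2)
    have hcop : Nat.Coprime (g 0) h := by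
      refine coprime_of_finite_compl (g := g) (fun j => ?_) hfin
      rw [hga j]
      exact dvd_add (Nat.gcd_dvd_left _ _) (Dvd.dvd.mul_right (Nat.gcd_dvd_right _ _) _)
    have hs := moShift (K := K) a
    rw [hl_Istar hs hga hh0 hcop]
    refine (bound_all (K := K) hs hinj ha0 hw.symm hA (g 0) h (hpos 0) hh0 i hi).trans ?_
    have hle2 : w ≤ g (Fin.last n) - g 0 := by
      rw [← hwW]
      exact Nat.le_mul_of_pos_left w hh0
    exact_mod_cast Nat.mul_le_mul_left i (Nat.choose_le_choose (i + 1) (Nat.add_le_add_right hle2 1))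

end Pool.Agent.HSU
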